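import Pool.Agent.helper47.MSW.SpecA
import Pool.Agent.helper47.MSW.SpecC

set_option autoImplicit false

/-! Row `msw:IN2`. -/

namespace Pool.Agent.MSW

open Equiv Finset Function MeasureTheory Pool.Agent.helper48.PP
open Pool.Agent.DSW (Pr Has GP wt)
open scoped ENNReal Classical

theorem IN2 (hIND : IND_stmt) (hHMN : HMN_stmt) : IN2_stmt := by
  intro d X Y w p q p' q' B hd0 hd1 hpq hqw hpq' hqw' hB
  obtain ⟨-, h2, h3, -, -, h6, h7, -⟩ := hHMN
  by_cases hp : p = p' ∨ (¬ p ≤ p' ∧ ¬ p' ≤ p)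
  swap
  · have hU : {ω | mnU X ω p ∧ mnU X ω p'} = (∅ : Set Om) := by
      rw [Set.eq_empty_iff_forall_notMem]
      rintro ω ⟨a1, a2⟩
      apply hp
      by_cases h : p ≤ p'
      · exact Or.inl (h2 X ω p p' a1 a2 h)
      · by_cases h' : p' ≤ p
        · exact Or.inl (h2 X ω p' p a2 a1 h').symm
        · exact Or.inr ⟨h, h'⟩
    rw [hU]
    simp
  by_cases hq : q = q' ∨ (¬ q ≤ q' ∧ ¬ q' ≤ q)
  swap
  · have hU : {ω | mxV Y ω w q ∧ mxV Y ω w q'} = (∅ : Set Om) := by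
      rw [Set.eq_empty_iff_forall_notMem]
      rintro ω ⟨a1, a2⟩
      apply hq
      by_cases h : q ≤ q'
      · exact Or.inl (h6 Y ω w q q' a1 a2 h)
      · by_cases h' : q' ≤ q
        · exact Or.inl (h6 Y ω w q' q a2 a1 h').symm
        · exact Or.inr ⟨h, h'⟩
    rw [hU]
    simp
  have hD1 : Dep (box 0 p ∪ box 0 p') {ω | mnU X ω p ∧ mnU X ω p'} := (h3 X p).inter (h3 X p')
  have hD2 : Dep (box q w ∪ box q' w) {ω | mxV Y ω w q ∧ mxV Y ω w q'} := (h7 Y w q).inter (h7 Y w q')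
  have hdis1 : Disjoint (box 0 p ∪ box 0 p') (box q w ∪ box q' w) := by
    rw [Finset.disjoint_left]
    intro c hc1 hc2
    simp only [Finset.mem_union, mem_box, Prod.le_def, Prod.ext_iff] at hc1 hc2 hp hq hpq hpq' hqw hqw'
    omega
  have hdis2 : Disjoint ((box 0 p ∪ box 0 p') ∪ (box q w ∪ box q' w)) (box p q) := by
    rw [Finset.disjoint_left]
    intro c hc1 hc2
    simp only [Finset.mem_union, mem_box, Prod.le_def, Prod.ext_iff] at hc1 hc2 hp hq hpq hpq' hqw hqw'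
    omega
  rw [hIND d _ _ _ B hd0 hd1 (hD1.inter hD2) hB hdis2, hIND d _ _ _ _ hd0 hd1 hD1 hD2 hdis1]

end Pool.Agent.MSW
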