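import Pool.Agent.helper47.MSW.SpecA
import Pool.Agent.helper47.MSW.SpecC

set_option autoImplicit false

/-! Row `msw:QLB`. -/

namespace Pool.Agent.MSW

open Equiv Finset Function MeasureTheory Pool.Agent.helper48.PP
open Pool.Agent.DSW (Pr Has GP wt)
open scoped ENNReal Classical

theorem QLB (hIN2 : IN2_stmt) (hHMN : HMN_stmt) : QLB_stmt := by
  intro d X Y w p q hd0 hd1 hpq hqw
  obtain ⟨-, -, -, -, h5, -, -, -⟩ := hHMN
  have hprod : ∀ p' q' : Pt, p' ≤ q' → q' ≤ w →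
      Pm d ({ω | mnU X ω p ∧ mnU X ω p'} ∩ {ω | mxV Y ω w q ∧ mxV Y ω w q'}) =
        Pm d {ω | mnU X ω p ∧ mnU X ω p'} * Pm d {ω | mxV Y ω w q ∧ mxV Y ω w q'} := by
    intro p' q' h1 h2
    have h := hIN2 d X Y w p q p' q' Set.univ hd0 hd1 hpq hqw h1 h2 (Dep.univ _)
    rw [Set.inter_univ, measure_univ, mul_one] at h
    exact h
  have hself := hprod p q hpq hqw
  simp only [and_self] at hself
  rw [← hself]
  set S : Pt × Pt → Set Om := fun r => if (r.1 ≤ r.2 ∧ r.2 ≤ w) ∧ (p, q) ≠ r then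
    {ω | mnU X ω p ∧ mnU X ω r.1} ∩ {ω | mxV Y ω w q ∧ mxV Y ω w r.2} else ∅ with hS
  have hsub : {ω | mnU X ω p} ∩ {ω | mxV Y ω w q} ⊆ {ω | Qe X Y ω w p q} ∪ ⋃ r, S r := by
    rintro ω ⟨a1, a2⟩
    have a1' : mnU X ω p := a1
    have a2' : mxV Y ω w q := a2
    by_cases hQ : ∀ p' q', mnU X ω p' → mxV Y ω w q' → p' ≤ q' → p' = p ∧ q' = q
    · exact Or.inl ⟨a1', a2', hpq, hQ⟩
    · push Not at hQ
      obtain ⟨p', q', b1, b2, b3, b4⟩ := hQ
      right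
      rw [Set.mem_iUnion]
      refine ⟨(p', q'), ?_⟩
      have hc : (p' ≤ q' ∧ q' ≤ w) ∧ (p, q) ≠ (p', q') := by
        refine ⟨⟨b3, h5 Y ω w q' b2⟩, fun e => ?_⟩
        rw [Prod.mk.injEq] at e
        exact b4 e.1.symm e.2.symm
      simp only [hS]
      rw [if_pos hc]
      exact ⟨⟨a1', b1⟩, ⟨a2', b2⟩⟩
  refine (measure_mono hsub).trans ((measure_union_le _ _).trans ?_)
  refine add_le_add le_rfl ((measure_iUnion_le S).trans (ENNReal.tsum_le_tsum fun r => ?_))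
  simp only [hS]
  by_cases hc : (r.1 ≤ r.2 ∧ r.2 ≤ w) ∧ (p, q) ≠ r
  · rw [if_pos hc, if_pos hc]
    exact (hprod r.1 r.2 hc.1.1 hc.1.2).le
  · rw [if_neg hc, if_neg hc, measure_empty]

end Pool.Agent.MSW
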